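import Pool.Agent.Q55.ZT.Transfer

/-!
# Finiteness of pure `ℤ`-motives and extensions of the base field

`D` and `D'` are the pure motives over the number field `F` and over the finite extension `F'` of
degree `d` (structures `Motives`: `ℚ`-vector spaces of morphisms, as matrices of the Betti
realisations, and Galois representations on `ℤ_ℓ ^ rank X` for all `ℓ`). A `ℤ`-motive is a pair
`(X, L)` with a Galois stable lattice `L` in the adelic realisation of `X`. The extension and the
restriction of scalars for `ℤ`-motives are given by a structure `Extension`: `A → res (ext A) → A` is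
the multiplication by the degree `d`, and `B` is a direct factor of `ext (res B)`. All endomorphism
algebras of `ℚ`-motives are assumed to be semisimple (this follows from the standard conjecture
`D`, or from the existence of polarizations).

**Theorem.**

1. Let `N` be a `ℤ`-motive and `k ≥ 1`. There are only finitely many `ℤ`-motives `A`, up to
   isomorphism, with morphisms `A → N → A` of `ℤ`-motives whose composition is the multiplication
   by `k`.
2. A `ℤ`-motive over `F'` has only finitely many forms over `F`, up to isomorphism; and a `ℤ`-motive
   over `F` is the restriction of scalars of only finitely many `ℤ`-motives over `F'`.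
3. Let `C` and `C'` be classes of `ℤ`-motives over `F` and `F'`. If `C'` contains `ext (A)` for all `A`
   in `C` and is finite up to isomorphism, then so is `C`. If `C` contains `res (B)` for all `B` in
   `C'` and is finite up to isomorphism, then so is `C'`.
4. Let `C s` and `C' s'` be families of classes of `ℤ`-motives over `F` and over `F'` such that for
   each `s` there is an `s'` and for each `s'` there is an `s` as in (3). Then all `C s` are finite if
   and only if all `C' s'` are finite.

So Q1 for the field `F'` implies the assertion of Q1 for all `ℤ`-motives over `F` which have semistable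
reduction over `F'` in `S` (3). For `C S t`: pure of weight `w` with Hodge numbers `t`, pure good
reduction outside `S` (and no condition inside `S`), (4) says that the finiteness for all `S`, `t` and
one number field, for instance `ℚ`, is equivalent to the finiteness for all number fields.

Proof. (1) The lattices `k e N + k (1 - e) N`, `e = i p / k` the idempotent, are between `N` and `k N`,
so that there are only finitely many; `e N` is a direct factor of one of them; by the theorem of Jordan
and Zassenhaus there are only finitely many direct factors; and `A` is between `e N` and `k e N`.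
(2) to (4) follow from (1) for `k = d` and `k = 1`.
-/

set_option autoImplicit false

namespace Pool.Agent.Results.MP_78e9a5_nt.BaseChange

open Pool.Agent.Q55.SF Pool.Agent.Q55.ZT

theorem result {G G' : Type} [Group G] [Group G'] (D : Motives G) (D' : Motives G')
    (hD : ∀ X, IsSemisimpleRing (D.endo X)) (hD' : ∀ X, IsSemisimpleRing (D'.endo X)) (d : ℕ)
    (hd : 0 < d) (E : Extension D D' d) :
    (∀ (N : D.ZMotive) (k : ℕ), 0 < k → FiniteClass D fun A => IsFactorUpTo D k A N) ∧
    (∀ B : D'.ZMotive, FiniteClass D fun A => D'.Iso B (E.ext A)) ∧
    (∀ A : D.ZMotive, FiniteClass D' fun B => D.Iso A (E.res B)) ∧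
    (∀ (C : D.ZMotive → Prop) (C' : D'.ZMotive → Prop),
      ((∀ A, C A → C' (E.ext A)) → FiniteClass D' C' → FiniteClass D C) ∧
      ((∀ B, C' B → C (E.res B)) → FiniteClass D C → FiniteClass D' C')) ∧
    ∀ (σ σ' : Type) (C : σ → D.ZMotive → Prop) (C' : σ' → D'.ZMotive → Prop),
      (∀ s, ∃ s', ∀ A, C s A → C' s' (E.ext A)) → (∀ s', ∃ s, ∀ B, C' s' B → C s (E.res B)) →
        ((∀ s, FiniteClass D (C s)) ↔ ∀ s', FiniteClass D' (C' s')) := by
  have h1 : ∀ (C : D.ZMotive → Prop) (C' : D'.ZMotive → Prop),
      (∀ A, C A → C' (E.ext A)) → FiniteClass D' C' → FiniteClass D C := fun C C' h hfin =>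
    transfer E.ext E.res E.res_iso C C' h d hd (fun _ _ => hD _) (fun A _ => E.unit A) hfin
  have h2 : ∀ (C : D.ZMotive → Prop) (C' : D'.ZMotive → Prop),
      (∀ B, C' B → C (E.res B)) → FiniteClass D C → FiniteClass D' C' := fun C C' h hfin =>
    transfer E.res E.ext E.ext_iso C' C h 1 one_pos (fun _ _ => hD' _) (fun B _ => E.counit B) hfin
  refine ⟨fun N k hk => finite_factors_upTo N (hD _) k hk, fun B => ?_, fun A => ?_,
    fun C C' => ⟨h1 C C', h2 C C'⟩, fun σ σ' C C' h h' => ⟨fun hfin s' => ?_, fun hfin s => ?_⟩⟩
  · exact h1 _ (fun B' => D'.Iso B B') (fun A hA => hA) ⟨1, fun _ => B, fun B' hB' => ⟨0, hB'⟩⟩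
  · exact h2 (fun A' => D.Iso A A') _ (fun B hB => hB) ⟨1, fun _ => A, fun A' hA' => ⟨0, hA'⟩⟩
  · obtain ⟨s, hs⟩ := h' s'
    exact h2 _ _ hs (hfin s)
  · obtain ⟨s', hs'⟩ := h s
    exact h1 _ _ hs' (hfin s')

end Pool.Agent.Results.MP_78e9a5_nt.BaseChange
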