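import Pool.Agent.Q55.NN.Mot

/-!
# The finiteness of pure `ℤ`-motives and of polarized `ℤ`-motives

The motives over the number field `F` are given by a structure `Motives` (objects, `ℚ`-vector spaces
of morphisms as matrices of the Betti realisations `ℚ ^ rank X`, Galois representations on
`ℤ_ℓ ^ rank X` for all `ℓ`), the morphisms `X ⊗ X → ℚ(-w)` and the Weil operators by a structure
`Forms`. A `ℤ`-motive is a pair `A = (X, L)` with a Galois stable lattice `L` in the adelic realisation
of `X`. A polarization of type `N` of `A` (`IsPolarizationOf`) is a polarization of `X` which is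
integral on `L` and such that `N L' ⊂ L` for the dual lattice `L'`; so type `1` is a principal
polarization.

**Theorem.**

1. The automorphism group of a polarized `ℤ`-motive is finite.
2. (The theorem of Narasimhan and Nori for pure motives.) A `ℤ`-motive has only finitely many
   polarizations of type `N`, up to automorphisms of the `ℤ`-motive, for every `N ≥ 1`.
3. Let `P` be a property of motives which is stable under finite direct sums (weight `w`, pure good
   reduction outside `S`, semistable reduction in `S`), such that all motives with `P` have a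
   polarization (this follows from the standard conjecture `D`), and `h` an additive invariant (the
   Hodge numbers). Then Q1 for `P` and `h`, that is, the finiteness of the number of isomorphism
   classes of `ℤ`-motives with `P` and given `h`, is equivalent to the finiteness of the number of
   isomorphism classes of principally polarized `ℤ`-motives (pairs `(A, J)`) with `P` and given `h`,
   and also to the finiteness of the number of isomorphism classes of `ℤ`-motives with a polarization
   of type `N`, with `P` and given `h`, for every `N ≥ 1`.

So Q1 is equivalent to the statement of the original Shafarevich conjecture for principally polarized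
objects, for pure motives of any weight and Hodge type.

Proof. (2) Let `J₀` be one of the polarizations, `E = End X` with the Rosati involution of `J₀` and `O`
the order of the endomorphisms of `A`. For each polarization `J` of type `N` the form
`tr (J₀⁻¹ xᵀ J y)` on `O` is positive definite, integral up to a bounded denominator and of bounded
determinant; by reduction theory there is a basis of `O` for which its matrix is bounded; the matrices
of the forms `tr (J₀⁻¹ xᵀ J y w)`, `w` in a fixed basis of `O`, are bounded as well, and there are only
finitely many possibilities for them. If they are the same for `J` and `J'` then the change of bases is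
the multiplication by a unit `u` of `O` with `uᵀ J' u = J`. (3) follows from (2) and
`PrincipalPolarizations` (Zarhin's trick and the finiteness of the number of direct factors).
-/

set_option autoImplicit false

namespace Pool.Agent.Results.MP_78e9a5_nt.PolarizedPairs

open Matrix Pool.Agent.Q55.SF Pool.Agent.Q55.ZT Pool.Agent.Q55.NN

theorem result {G : Type} [Group G] (D : Motives G) (Q : Forms D) :
    (∀ (A : D.ZMotive) (J : Matrix (Fin (D.rank A.X)) (Fin (D.rank A.X)) ℚ),
      Q.IsPolarization A.X J → {f | f ∈ D.Hom A.X A.X ∧
        (∀ (ℓ : ℕ) [Fact ℓ.Prime], ∀ v ∈ A.L ℓ, f.map (algebraMap ℚ ℚ_[ℓ]) *ᵥ v ∈ A.L ℓ) ∧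
          f.transpose * J * f = J}.Finite) ∧
    (∀ (A : D.ZMotive) (N : ℕ), 0 < N → ∃ (m : ℕ) (F : Fin m → {J // IsPolarizationOf Q A N J}),
      ∀ J : {J // IsPolarizationOf Q A N J}, ∃ i, PolIso A A (F i).1 J.1) ∧
    ∀ (τ : Type) [AddCommMonoid τ] (P : D.Obj → Prop) (h : D.Obj → τ), HasAdditiveSums D P h →
      (∀ X, P X → ∃ J, Q.IsPolarization X J) →
        List.TFAE [
          D.Finiteness P h,
          PolarizedFiniteness Q P h 1,
          ∀ N : ℕ, 0 < N → PolarizedFiniteness Q P h N] := by
  refine ⟨fun A J hJ => finite_aut A hJ, fun A N hN => finite_polarizations A N hN, ?_⟩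
  intro τ _ P h hs hpol
  tfae_have 1 → 3 := by
    intro hfin N hN t
    obtain ⟨m, B, hB⟩ := hfin t
    choose r F hF using fun i => finite_polarizations (Q := Q) (B i) N hN
    refine exists_family (T := Σ i : Fin m, Fin (r i))
      (fun B' : Polarized Q N => P B'.A.X ∧ h B'.A.X = t)
      (fun B' s => PolIso (B s.1) B'.A (F s.1 s.2).1 B'.J)
      (fun B' B'' => PolIso B'.A B''.A B'.J B''.J) ?_ ?_ |>.imp
      fun m' h1 => h1.imp fun B' h2 A hA hA' => h2 A ⟨hA, hA'⟩
    · rintro B' ⟨h1, h2⟩
      obtain ⟨i, hi⟩ := hB B'.A h1 h2
      obtain ⟨J', hJ', hiso⟩ := transport B'.pol hi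
      obtain ⟨j, hj⟩ := hF i ⟨J', hJ'⟩
      exact ⟨⟨i, j⟩, polIso_trans hj hiso⟩
    · intro B' B'' s h1 h2
      exact polIso_trans (polIso_symm h1) h2
  tfae_have 3 → 2 := fun hfin => hfin 1 one_pos
  tfae_have 2 → 1 := by
    intro hfin
    refine finiteness_of_principal hs hpol fun t => ?_
    obtain ⟨m, B, hB⟩ := hfin t
    refine ⟨m, fun i => (B i).A, fun A hA hA' hpr => ?_⟩
    obtain ⟨J, hJ, hd⟩ := hpr
    obtain ⟨i, f, hf, g, hg, h1, h2, h3, -⟩ := hB ⟨A, J, hJ, fun ℓ _ u hu v hv =>
      (hd ℓ v).mp hv u hu, fun ℓ _ v hv => by
        rw [Nat.cast_one, one_smul]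
        exact (hd ℓ v).mpr hv⟩ hA hA'
    exact ⟨i, f, hf, g, hg, h1, h2, h3⟩
  tfae_finish

end Pool.Agent.Results.MP_78e9a5_nt.PolarizedPairs
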