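import Pool.Agent.Q55.ZT.Main
import Pool.Agent.Q55.SF.SsMod
import Pool.Agent.Q55.SF.Wk

/-!
# The finiteness of pure `ℤ`-motives follows from the case of principal polarizations

The motives over the number field `F` are given by a structure `Motives` (objects, `ℚ`-vector spaces
of morphisms as matrices of the Betti realisations `ℚ ^ rank X`, Galois representations on
`ℤ_ℓ ^ rank X` for all `ℓ`), the morphisms `X ⊗ X → ℚ(-w)` and the Weil operators by a structure
`Forms`. `P` is a property of motives which is stable under finite direct sums (weight `w`, pure good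
reduction outside `S`, semistable reduction in `S`), and `h` is an additive invariant (the Hodge
numbers). The assertion Q1 for `P` is `Finiteness`: for each value `t` of `h` the `ℤ`-motives `(X, L)`,
`L` a Galois stable lattice in the adelic realisation of `X`, with `P X` and `h X = t` fall into
finitely many isomorphism classes.

**Theorem.** Assume that every motive with the property `P` has a polarization (this follows from
the standard conjecture `D`).

1. (Zarhin's trick for pure motives.) Every `ℤ`-motive `A` with `P` is a direct factor of a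
   principally polarized `ℤ`-motive `B` with `P` and `h B = 8 h A`.
2. Every `ℤ`-motive with `P` has only finitely many direct factors, up to isomorphism.
3. Q1 is equivalent to Q1 for the principally polarized `ℤ`-motives; and also to: there are only
   finitely many `ℚ`-motives with `P` and given `h`, and the integral form of the Tate conjecture for
   endomorphisms and of semisimplicity holds for all `X` with `P` (or: the algebra generated by the
   Galois group is open in the adelic commutant of the endomorphisms of `X`, for all `X` with `P`).

Proof. (1) A multiple `J` of a polarization is integral on `L`; let `L'` be the dual lattice, `m L' ⊂ L`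
and `m = 1 + a² + b² + c² + d²`. With the matrix `I` of the quaternion `a + bi + cj + dk` the lattice
`{(z, w) : z ∈ L'⁴, w - I z ∈ L⁴}` in `X⁴ ⊕ X⁴` is self-dual for `J⁸`, and `L` is a direct factor of it.
(2) The Rosati involution is positive, so that `End (X)` is semisimple; the theorem of Jordan and
Zassenhaus, for the modules `L` over the product of the orders of the two factors. (3) follows from
(1) and (2) and from the methods for `TateEquivalence`.
-/

set_option autoImplicit false

namespace Pool.Agent.Results.MP_78e9a5_nt.PrincipalPolarizations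

open Pool.Agent.Q55.SF Pool.Agent.Q55.ZT

theorem result {G : Type} [Group G] (D : Motives G) (Q : Forms D) {τ : Type} [AddCommMonoid τ]
    (P : D.Obj → Prop) (h : D.Obj → τ) (hs : HasAdditiveSums D P h)
    (hpol : ∀ X, P X → ∃ J, Q.IsPolarization X J) :
    (∀ A : D.ZMotive, P A.X → ∃ B : D.ZMotive, P B.X ∧ h B.X = 8 • h A.X ∧ Q.IsPrincipal B ∧
      IsFactor D A B) ∧
    (∀ N : D.ZMotive, P N.X → ∃ (m : ℕ) (B : Fin m → D.ZMotive), ∀ A : D.ZMotive,
      IsFactor D A N → ∃ j, D.Iso (B j) A) ∧
    List.TFAE [
      D.Finiteness P h,
      Q.PrincipalFiniteness P h,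
      D.RationalFiniteness P h ∧ ∀ X, P X → D.IntegralTate X,
      D.RationalFiniteness P h ∧ ∀ X, P X → D.IsOpen X] := by
  have hE : ∀ X, P X → IsSemisimpleRing (D.endo X) := fun X hX =>
    semisimple_of_polarization (hpol X hX).choose_spec
  have hsum := hs.hasSums
  refine ⟨fun A hA => ?_, fun N hN => finite_factors N (hE _ hN), ?_⟩
  · obtain ⟨J, hJ⟩ := hpol A.X hA
    obtain ⟨B, hB, hh, hB2, hB3⟩ := zarhin hs A hA hJ
    refine ⟨B, hB, ?_, hB2, hB3⟩
    rw [hh, Finset.sum_const, Finset.card_univ, Fintype.card_fin]
  · tfae_have 1 → 2 := by
      intro hfin t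
      obtain ⟨m, B, hB⟩ := hfin t
      exact ⟨m, B, fun A hA hA' _ => hB A hA hA'⟩
    tfae_have 2 → 1 := fun hfin => finiteness_of_principal hs hpol hfin
    tfae_have 1 → 3 := by
      intro hfin
      refine ⟨rational_of_finiteness hfin, fun X hX => ?_⟩
      have ho := isOpen_of_finiteness hfin hsum X hX
      obtain ⟨N, hN⟩ := semisimpleMod hfin X hX (hE X hX)
      obtain ⟨N', hN'⟩ := tateMod_of_isOpen X ho (hE X hX)
      exact ⟨fun ℓ _ => ⟨semisimpleAt_of_finiteness hfin X hX ℓ, tateAt_of_isOpen X ho (hE X hX) ℓ⟩,
        max N N', fun ℓ _ hℓ => ⟨hN ℓ (lt_of_le_of_lt (le_max_left _ _) hℓ),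
          hN' ℓ (lt_of_le_of_lt (le_max_right _ _) hℓ)⟩⟩
    tfae_have 3 → 4 := fun hT => ⟨hT.1, fun X hX => isOpen_of_integralTate X (hT.2 X hX)⟩
    tfae_have 4 → 1 := fun ho => finiteness_of_isOpen ho.1 hE ho.2
    tfae_finish

end Pool.Agent.Results.MP_78e9a5_nt.PrincipalPolarizations
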