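import Pool.Agent.Q55.SF.Back
import Pool.Agent.Q55.SF.SsMod
import Pool.Agent.Q55.SF.Wk

/-!
# The finiteness of pure `ℤ`-motives and the integral Tate conjecture for endomorphisms

`F` is a number field with absolute Galois group `G`. The motives over `F` are given by a structure
`Motives`: objects `X`, `ℚ`-vector spaces of morphisms (matrices of the Betti realisations
`ℚ ^ rank X`, so that `End (X)` is a subalgebra `E` of `M_n(ℚ)`) and Galois representations on
`T_ℓ = ℤ_ℓ ^ n ⊂ V_ℓ = ℚ_ℓ ^ n` for all `ℓ`, for which the morphisms are equivariant. `P` is a property
of motives which is stable under finite direct sums (weight `w`, pure good reduction outside `S`,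
semistable reduction in `S`), `h` is any invariant (the Hodge numbers). The assertion Q1 for `P` is
`Finiteness`: for each value `t` of `h` the `ℤ`-motives `(X, L)`, `L` a Galois stable lattice in the
adelic realisation, with `P X` and `h X = t` fall into finitely many isomorphism classes.

**Theorem.**

1. If Q1 holds then for all motives `X` with `P` the algebra generated by `G` is open in the adelic
   commutant of `E = End (X)`: the `ℤ_ℓ`-algebra generated by `G` in `M_n(ℤ_ℓ)` has finite index in the
   algebra of the matrices which commute with `E`, for all `ℓ`, and is equal to it for almost all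
   `ℓ`. Moreover for all `ℓ` the representation `V_ℓ` is semisimple, and its endomorphisms are the
   `ℚ_ℓ`-linear combinations of the elements of the bicommutant of `E` in `M_n(ℚ)`, so that their
   dimension does not depend on `ℓ`. Here no standard conjecture is assumed.
2. Assume that `End (X)` is semisimple for all `X` with `P` (it is, for numerical equivalence; for
   homological equivalence this is a consequence of the standard conjecture `D`). Then Q1 is
   equivalent to the following two assertions: there are only finitely many `ℚ`-motives with `P` and
   given `h`, up to isomorphism; for all `X` with `P` the integral form of the Tate conjecture for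
   endomorphisms and of semisimplicity holds, for all `V_ℓ` and for almost all `T_ℓ / ℓ`. The second
   assertion can be replaced by: for all `X` with `P` the algebra generated by `G` is open in the
   adelic commutant of `End (X)`. By the theorem of Faltings on the finiteness of semisimple
   representations the first assertion follows from the Tate conjecture and semisimplicity.

Proof. (1) The modifications of the standard lattice at `ℓ` by Galois stable submodules fall into
finitely many classes; by a compactness argument (on the motive `X ^ n`, for a vector which generates
the matrices) the commutant of the endomorphisms is in the Galois algebra up to finite index, and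
stable subspaces have stable complements. For almost all `ℓ` an infinite set of `ℓ` with modified
lattices gives isomorphic `ℤ`-motives for different `ℓ`, so rational automorphisms with
denominators only at `ℓ`. (2) The theorem of Jordan and Zassenhaus (proved in `JZ1`-`JZ6`) for the
lattices stable under an order in the commutant of `End (X)`, the dictionary between adelic and
rational lattices, and the argument of Tate with the representation `V_ℓ (X ⊕ B)`.
-/

set_option autoImplicit false

namespace Pool.Agent.Results.MP_78e9a5_nt.TateEquivalence

open Pool.Agent.Q55.SF

theorem result {G : Type} [Group G] (D : Motives G) {τ : Type} (P : D.Obj → Prop)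
    (h : D.Obj → τ) (hsum : D.HasSums P) :
    (D.Finiteness P h → ∀ X, P X → D.IsOpen X ∧
      ∀ (ℓ : ℕ) [Fact ℓ.Prime], D.IsSemisimpleAt X ℓ ∧ D.BicommutantTate X ℓ) ∧
    ((∀ X, P X → IsSemisimpleRing (D.endo X)) →
      List.TFAE [
        D.Finiteness P h,
        D.RationalFiniteness P h ∧ ∀ X, P X → D.IntegralTate X,
        D.RationalFiniteness P h ∧ ∀ X, P X → D.IsOpen X] ∧
      (D.FaltingsFiniteness P h →
        (∀ (ℓ : ℕ) [Fact ℓ.Prime] (X : D.Obj), P X → D.IsSemisimpleAt X ℓ ∧ D.TateAt X ℓ) →
          D.RationalFiniteness P h)) := by
  refine ⟨fun hfin X hX => ?_, fun hE => ⟨?_, fun hF hT => rational_of_faltings hF hsum hE hT⟩⟩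
  · have ho := isOpen_of_finiteness hfin hsum X hX
    exact ⟨ho, fun ℓ _ => ⟨semisimpleAt_of_finiteness hfin X hX ℓ, bicommutantTate_of_isOpen X ho ℓ⟩⟩
  · tfae_have 1 → 2 := by
      intro hfin
      refine ⟨rational_of_finiteness hfin, fun X hX => ?_⟩
      have ho := isOpen_of_finiteness hfin hsum X hX
      obtain ⟨N, hN⟩ := semisimpleMod hfin X hX (hE X hX)
      obtain ⟨N', hN'⟩ := tateMod_of_isOpen X ho (hE X hX)
      exact ⟨fun ℓ _ => ⟨semisimpleAt_of_finiteness hfin X hX ℓ, tateAt_of_isOpen X ho (hE X hX) ℓ⟩,
        max N N', fun ℓ _ hℓ => ⟨hN ℓ (lt_of_le_of_lt (le_max_left _ _) hℓ),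
          hN' ℓ (lt_of_le_of_lt (le_max_right _ _) hℓ)⟩⟩
    tfae_have 2 → 3 := fun hT => ⟨hT.1, fun X hX => isOpen_of_integralTate X (hT.2 X hX)⟩
    tfae_have 3 → 1 := fun ho => finiteness_of_isOpen ho.1 hE ho.2
    tfae_finish

end Pool.Agent.Results.MP_78e9a5_nt.TateEquivalence
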